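import Mathlib

namespace Pool.Agent.H.MP_3fdae4_co

open Finset

lemma polar (x y : ℝ) : ∃ r c s : ℝ, 0 ≤ r ∧ c ^ 2 + s ^ 2 = 1 ∧ x = r * c ∧ y = r * s := by
  by_cases h : x ^ 2 + y ^ 2 = 0
  · have hx : x = 0 := by nlinarith [sq_nonneg x, sq_nonneg y]
    have hy : y = 0 := by nlinarith [sq_nonneg x, sq_nonneg y]
    exact ⟨0, 1, 0, le_rfl, by norm_num, by simp [hx], by simp [hy]⟩
  · have hp : 0 < x ^ 2 + y ^ 2 := lt_of_le_of_ne (by positivity) (Ne.symm h)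
    have hr : 0 < √(x ^ 2 + y ^ 2) := Real.sqrt_pos.2 hp
    have hs : √(x ^ 2 + y ^ 2) ^ 2 = x ^ 2 + y ^ 2 := Real.sq_sqrt hp.le
    refine ⟨√(x ^ 2 + y ^ 2), x / √(x ^ 2 + y ^ 2), y / √(x ^ 2 + y ^ 2), hr.le, ?_, ?_, ?_⟩
    · rw [div_pow, div_pow, hs]; field_simp
    · field_simp
    · field_simp

noncomputable def pp (u : ℝ) : ℝ := 2 / 9 + 11 / 9 * u ^ 2 - 4 / 9 * u ^ 4

lemma pp_sub (u : ℝ) : pp u - u = 4 / 9 * ((1 - u) * (u + 2) * (u - 1 / 2) ^ 2) := by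
  unfold pp; ring

lemma pp_expand (c s c' s' : ℝ) (h : c ^ 2 + s ^ 2 = 1) (h' : c' ^ 2 + s' ^ 2 = 1) :
    pp (c * c' + s * s') = 2 / 3 + 7 / 18 * ((c ^ 2 - s ^ 2) * (c' ^ 2 - s' ^ 2)
      + (2 * c * s) * (2 * c' * s'))
      - 1 / 18 * (((c ^ 2 - s ^ 2) ^ 2 - (2 * c * s) ^ 2) * ((c' ^ 2 - s' ^ 2) ^ 2 - (2 * c' * s') ^ 2)
        + (2 * (c ^ 2 - s ^ 2) * (2 * c * s)) * (2 * (c' ^ 2 - s' ^ 2) * (2 * c' * s'))) := by
  have e2 : (c ^ 2 - s ^ 2) * (c' ^ 2 - s' ^ 2) + (2 * c * s) * (2 * c' * s')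
      = 2 * (c * c' + s * s') ^ 2 - 1 := by
    have : (c ^ 2 + s ^ 2) * (c' ^ 2 + s' ^ 2) = 1 := by rw [h, h']; norm_num
    linear_combination -this
  have a1 : (c ^ 2 - s ^ 2) ^ 2 + (2 * c * s) ^ 2 = 1 := by
    have : (c ^ 2 + s ^ 2) ^ 2 = 1 := by rw [h]; norm_num
    linear_combination this
  have a2 : (c' ^ 2 - s' ^ 2) ^ 2 + (2 * c' * s') ^ 2 = 1 := by
    have : (c' ^ 2 + s' ^ 2) ^ 2 = 1 := by rw [h']; norm_num
    linear_combination this
  generalize c ^ 2 - s ^ 2 = C at *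
  generalize 2 * c * s = S at *
  generalize c' ^ 2 - s' ^ 2 = C' at *
  generalize 2 * c' * s' = S' at *
  have e4 : (C ^ 2 - S ^ 2) * (C' ^ 2 - S' ^ 2) + (2 * C * S) * (2 * C' * S')
      = 2 * (C * C' + S * S') ^ 2 - 1 := by
    have : (C ^ 2 + S ^ 2) * (C' ^ 2 + S' ^ 2) = 1 := by rw [a1, a2]; norm_num
    linear_combination -this
  rw [e4, e2]
  unfold pp; ring

lemma t_le (c s c' s' : ℝ) (h : c ^ 2 + s ^ 2 = 1) (h' : c' ^ 2 + s' ^ 2 = 1) :
    -1 ≤ c * c' + s * s' ∧ c * c' + s * s' ≤ 1 := by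
  constructor <;> nlinarith [sq_nonneg (c - c'), sq_nonneg (s - s'), sq_nonneg (c + c'),
    sq_nonneg (s + s')]

lemma dsum {V : Type} [Fintype V] (f : V → ℝ) : ∑ i, ∑ j, f i * f j = (∑ i, f i) ^ 2 := by
  rw [sq, sum_mul_sum]

/-- The extremal analysis of the planar projection constant. -/
lemma core {V : Type} [Fintype V] (r c s : V → ℝ) (σ : V → V → ℝ)
    (hσ : ∀ i j, σ i j = 1 ∨ σ i j = -1) (hr : ∀ i, 0 ≤ r i) (hcs : ∀ i, c i ^ 2 + s i ^ 2 = 1)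
    (h1 : ∑ i, r i ^ 2 = 2) (h2 : ∑ i, r i ^ 2 * (c i ^ 2 - s i ^ 2) = 0)
    (h3 : ∑ i, r i ^ 2 * (2 * c i * s i) = 0)
    (h4 : 4 / 3 * (Fintype.card V : ℝ) ≤
      ∑ i, ∑ j, r i * r j * (σ i j * (c i * c j + s i * s j))) :
    (∃ ρ : ℝ, ∀ i, ρ * r i = 1) ∧ ∀ i j, σ i j * (c i * c j + s i * s j) = 1 ∨
      σ i j * (c i * c j + s i * s j) = 1 / 2 := by
  set C : V → ℝ := fun i => c i ^ 2 - s i ^ 2 with hC
  set S : V → ℝ := fun i => 2 * c i * s i with hS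
  set ρ : ℝ := (∑ i, r i) / 2 with hρ
  set q : V → ℝ := fun i => 1 - ρ * r i with hq
  have hQ : ∑ i, q i ^ 2 = Fintype.card V - 2 * ρ ^ 2 := by
    have : ∀ i, q i ^ 2 = 1 - 2 * ρ * r i + ρ ^ 2 * r i ^ 2 := fun i => by simp only [hq]; ring
    simp only [this, sum_add_distrib, sum_sub_distrib, ← mul_sum, h1]
    have e : ∑ i, r i = 2 * ρ := by rw [hρ]; ring
    rw [e]; simp; ring
  have hC1 : ∑ i, r i * C i = ∑ i, q i * (r i * C i) := by
    have : ∀ i, q i * (r i * C i) = r i * C i - ρ * (r i ^ 2 * (c i ^ 2 - s i ^ 2)) :=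
      fun i => by simp only [hq, hC]; ring
    simp only [this, sum_sub_distrib, ← mul_sum, h2]; ring
  have hS1 : ∑ i, r i * S i = ∑ i, q i * (r i * S i) := by
    have : ∀ i, q i * (r i * S i) = r i * S i - ρ * (r i ^ 2 * (2 * c i * s i)) :=
      fun i => by simp only [hq, hS]; ring
    simp only [this, sum_sub_distrib, ← mul_sum, h3]; ring
  have cs1 := sum_mul_sq_le_sq_mul_sq univ q (fun i => r i * C i)
  have cs2 := sum_mul_sq_le_sq_mul_sq univ q (fun i => r i * S i)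
  have hsum : ∑ i, (r i * C i) ^ 2 + ∑ i, (r i * S i) ^ 2 = 2 := by
    rw [← sum_add_distrib, ← h1]
    refine sum_congr rfl fun i _ => ?_
    have : (c i ^ 2 + s i ^ 2) ^ 2 = 1 := by rw [hcs i]; norm_num
    simp only [hC, hS]
    linear_combination r i ^ 2 * this
  have hb : (∑ i, r i * C i) ^ 2 + (∑ i, r i * S i) ^ 2 ≤ 2 * ∑ i, q i ^ 2 := by
    rw [hC1, hS1]
    have : (∑ i, q i ^ 2) * ∑ i, (r i * C i) ^ 2 + (∑ i, q i ^ 2) * ∑ i, (r i * S i) ^ 2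
        = 2 * ∑ i, q i ^ 2 := by rw [← mul_add, hsum]; ring
    linarith
  have hexp : ∑ i, ∑ j, r i * r j * pp (c i * c j + s i * s j) = 2 / 3 * (∑ i, r i) ^ 2
      + 7 / 18 * ((∑ i, r i * C i) ^ 2 + (∑ i, r i * S i) ^ 2)
      - 1 / 18 * ((∑ i, r i * (C i ^ 2 - S i ^ 2)) ^ 2 + (∑ i, r i * (2 * C i * S i)) ^ 2) := by
    simp only [← dsum, mul_add, mul_sum, ← sum_add_distrib, ← sum_sub_distrib]
    refine sum_congr rfl fun i _ => sum_congr rfl fun j _ => ?_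
    rw [pp_expand _ _ _ _ (hcs i) (hcs j)]
    simp only [hC, hS]; ring
  have hpp : ∀ i j, pp (σ i j * (c i * c j + s i * s j)) = pp (c i * c j + s i * s j) := by
    intro i j
    rcases hσ i j with h | h <;> rw [h] <;> unfold pp <;> ring
  have hu : ∀ i j, -1 ≤ σ i j * (c i * c j + s i * s j) ∧ σ i j * (c i * c j + s i * s j) ≤ 1 := by
    intro i j
    have := t_le _ _ _ _ (hcs i) (hcs j)
    rcases hσ i j with h | h <;> rw [h] <;> constructor <;> linarith [this.1, this.2]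
  have hterm : ∀ i j, 0 ≤ r i * r j * (pp (c i * c j + s i * s j)
      - σ i j * (c i * c j + s i * s j)) := by
    intro i j
    rw [← hpp, pp_sub]
    have := hu i j
    have a1 : 0 ≤ 1 - σ i j * (c i * c j + s i * s j) := by linarith [this.2]
    have a2 : 0 ≤ σ i j * (c i * c j + s i * s j) + 2 := by linarith [this.1]
    have := hr i
    have := hr j
    positivity
  have htot : ∑ i, ∑ j, r i * r j * (pp (c i * c j + s i * s j)
      - σ i j * (c i * c j + s i * s j)) ≤ -(5 / 9) * ∑ i, q i ^ 2 := by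
    simp only [mul_sub, sum_sub_distrib]
    rw [hexp]
    have e : ∑ i, r i = 2 * ρ := by rw [hρ]; ring
    rw [e]
    nlinarith [sq_nonneg (∑ i, r i * (C i ^ 2 - S i ^ 2)), sq_nonneg (∑ i, r i * (2 * C i * S i))]
  have hnn : 0 ≤ ∑ i, ∑ j, r i * r j * (pp (c i * c j + s i * s j)
      - σ i j * (c i * c j + s i * s j)) :=
    sum_nonneg fun i _ => sum_nonneg fun j _ => hterm i j
  have hQ0 : 0 ≤ ∑ i, q i ^ 2 := sum_nonneg fun i _ => sq_nonneg _
  have hq0 : ∀ i, ρ * r i = 1 := by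
    intro i
    have : ∑ i, q i ^ 2 = 0 := by linarith
    have h5 := (sum_eq_zero_iff_of_nonneg (fun i _ => sq_nonneg (q i))).1 this i (mem_univ i)
    have h6 : q i = 0 := pow_eq_zero_iff (two_ne_zero) |>.1 h5
    simp only [hq] at h6
    linarith
  refine ⟨⟨ρ, hq0⟩, fun i j => ?_⟩
  have hz : ∑ i, ∑ j, r i * r j * (pp (c i * c j + s i * s j)
      - σ i j * (c i * c j + s i * s j)) = 0 := by linarith
  have h5 := (sum_eq_zero_iff_of_nonneg (fun i _ => sum_nonneg fun j _ => hterm i j)).1 hz i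
    (mem_univ i)
  have h6 := (sum_eq_zero_iff_of_nonneg (fun j _ => hterm i j)).1 h5 j (mem_univ j)
  have ri : r i ≠ 0 := fun h => by have := hq0 i; rw [h] at this; simp at this
  have rj : r j ≠ 0 := fun h => by have := hq0 j; rw [h] at this; simp at this
  rw [← hpp, pp_sub] at h6
  have := hu i j
  generalize σ i j * (c i * c j + s i * s j) = u at *
  simp only [mul_eq_zero, ri, rj, false_or, or_self] at h6
  rcases h6 with h6 | (h6 | h6) | h6
  · norm_num at h6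
  · left; linarith
  · exfalso; linarith [this.1]
  · right
    have := pow_eq_zero_iff (two_ne_zero) |>.1 h6
    linarith

end Pool.Agent.H.MP_3fdae4_co
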