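import Mathlib
import Pool.Agent.H.MP_3fdae4_co.Core

namespace Pool.Agent.H.MP_3fdae4_co

open Finset

noncomputable def ca : Fin 6 → ℝ := ![1, 1 / 2, -1 / 2, -1, -1 / 2, 1 / 2]
noncomputable def sa : Fin 6 → ℝ := ![0, √3 / 2, √3 / 2, 0, -(√3 / 2), -(√3 / 2)]

lemma s3 : √3 * √3 = 3 := Real.mul_self_sqrt (by norm_num)

lemma classify (a b : ℝ) (h : a ^ 2 + b ^ 2 = 1)
    (ha : a = 1 ∨ a = 1 / 2 ∨ a = -1 ∨ a = -1 / 2) : ∃ k : Fin 6, a = ca k ∧ b = sa k := by
  have hb : a ^ 2 = 1 / 4 → b = √3 / 2 ∨ b = -(√3 / 2) := by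
    intro e
    have : (b - √3 / 2) * (b + √3 / 2) = 0 := by nlinarith [s3]
    rcases mul_eq_zero.1 this with h1 | h1
    · left; linarith
    · right; linarith
  rcases ha with rfl | rfl | rfl | rfl
  · exact ⟨0, rfl, by simp [sa]; nlinarith⟩
  · rcases hb (by norm_num) with h1 | h1
    · exact ⟨1, rfl, h1⟩
    · exact ⟨5, rfl, h1⟩
  · exact ⟨3, rfl, by simp [sa]; nlinarith⟩
  · rcases hb (by norm_num) with h1 | h1
    · exact ⟨2, rfl, h1⟩
    · exact ⟨4, rfl, h1⟩

lemma sign_iff (k l : Fin 6) :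
    0 < ca k * ca l + sa k * sa l ↔ (k = l ∨ (SimpleGraph.cycleGraph 6).Adj k l) := by
  have e : ∀ k l : Fin 6, (k = l ∨ (SimpleGraph.cycleGraph 6).Adj k l) ↔
      (k = l ∨ k = l + 1 ∨ l = k + 1) := by decide
  rw [e]
  have := s3
  fin_cases k <;> fin_cases l <;> simp [ca, sa] <;> nlinarith

lemma fib {V : Type} [Fintype V] (k : V → Fin 6) (f : Fin 6 → ℝ) :
    ∑ v, f (k v) = ∑ l, ((univ.filter (fun v => k v = l)).card : ℝ) * f l := by
  rw [← sum_fiberwise univ k (fun v => f (k v))]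
  refine sum_congr rfl fun l _ => ?_
  rw [sum_congr rfl (g := fun _ => f l)]
  · simp
  · intro v hv
    rw [(mem_filter.1 hv).2]

lemma struct {V : Type} [Fintype V] [Nonempty V] (x y : V → ℝ) (B : V → V → Prop)
    [∀ i j, Decidable (B i j)]
    (hx : ∑ i, x i = 0) (hy : ∑ i, y i = 0) (hxx : ∑ i, x i ^ 2 = 1) (hyy : ∑ i, y i ^ 2 = 1)
    (hxy : ∑ i, x i * y i = 0)
    (hB : 2 / 3 * (Fintype.card V : ℝ) ≤
      ∑ i, ∑ j, if B i j then x i * x j + y i * y j else 0) :
    ∃ (k : V → Fin 6) (a b : ℕ),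
      (∀ l : Fin 6, (univ.filter (fun v => k v = l)).card = if l.val % 2 = 0 then a else b) ∧
      ∀ i j, B i j ↔ (k i = k j ∨ (SimpleGraph.cycleGraph 6).Adj (k i) (k j)) := by
  choose r c s hr hcs ex ey using fun i => polar (x i) (y i)
  obtain rfl : x = fun i => r i * c i := funext ex
  obtain rfl : y = fun i => r i * s i := funext ey
  have h1 : ∑ i, r i ^ 2 = 2 := by
    have : ∑ i, r i ^ 2 = ∑ i, (r i * c i) ^ 2 + ∑ i, (r i * s i) ^ 2 := by
      rw [← sum_add_distrib]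
      exact sum_congr rfl fun i _ => by linear_combination (-r i ^ 2) * hcs i
    rw [this, hxx, hyy]; norm_num
  have h2 : ∑ i, r i ^ 2 * (c i ^ 2 - s i ^ 2) = 0 := by
    have : ∑ i, r i ^ 2 * (c i ^ 2 - s i ^ 2) = ∑ i, (r i * c i) ^ 2 - ∑ i, (r i * s i) ^ 2 := by
      rw [← sum_sub_distrib]
      exact sum_congr rfl fun i _ => by ring
    rw [this, hxx, hyy]; norm_num
  have h3 : ∑ i, r i ^ 2 * (2 * c i * s i) = 0 := by
    have : ∑ i, r i ^ 2 * (2 * c i * s i) = 2 * ∑ i, (r i * c i) * (r i * s i) := by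
      rw [mul_sum]
      exact sum_congr rfl fun i _ => by ring
    rw [this, hxy]; norm_num
  have h4 : 4 / 3 * (Fintype.card V : ℝ) ≤ ∑ i, ∑ j, r i * r j *
      ((if B i j then (1 : ℝ) else -1) * (c i * c j + s i * s j)) := by
    have : ∑ i, ∑ j, r i * r j * ((if B i j then (1 : ℝ) else -1) * (c i * c j + s i * s j))
        = 2 * (∑ i, ∑ j, if B i j then r i * c i * (r j * c j) + r i * s i * (r j * s j) else 0)
          - (∑ i, r i * c i) ^ 2 - (∑ i, r i * s i) ^ 2 := by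
      simp only [← dsum, mul_sum, ← sum_sub_distrib]
      refine sum_congr rfl fun i _ => sum_congr rfl fun j _ => ?_
      split_ifs <;> ring
    rw [this, hx, hy]
    linarith
  obtain ⟨⟨ρ, hρ⟩, h5⟩ := core r c s (fun i j => if B i j then 1 else -1)
    (fun i j => by split_ifs <;> simp) hr hcs h1 h2 h3 h4
  obtain ⟨o⟩ := ‹Nonempty V›
  have hcl : ∀ j, ∃ k : Fin 6, c o * c j + s o * s j = ca k ∧ c o * s j - s o * c j = sa k := by
    intro j
    apply classify
    · have : (c o ^ 2 + s o ^ 2) * (c j ^ 2 + s j ^ 2) = 1 := by rw [hcs, hcs]; norm_num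
      linear_combination this
    · have := h5 o j
      split_ifs at this
      · rcases this with h | h
        · left; linarith
        · right; left; linarith
      · rcases this with h | h
        · right; right; left; linarith
        · right; right; right; linarith
  choose k hk1 hk2 using hcl
  have sc : ∑ i, c i = 0 := by
    have : ∑ i, c i = ρ * ∑ i, r i * c i := by
      rw [mul_sum]; exact sum_congr rfl fun i _ => by linear_combination (-c i) * hρ i
    rw [this, hx, mul_zero]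
  have ss : ∑ i, s i = 0 := by
    have : ∑ i, s i = ρ * ∑ i, r i * s i := by
      rw [mul_sum]; exact sum_congr rfl fun i _ => by linear_combination (-s i) * hρ i
    rw [this, hy, mul_zero]
  have sC : ∑ i, (c i ^ 2 - s i ^ 2) = 0 := by
    have : ∑ i, (c i ^ 2 - s i ^ 2) = ρ ^ 2 * ∑ i, r i ^ 2 * (c i ^ 2 - s i ^ 2) := by
      rw [mul_sum]
      exact sum_congr rfl fun i _ => by
        linear_combination (-(c i ^ 2 - s i ^ 2) * (ρ * r i + 1)) * hρ i
    rw [this, h2, mul_zero]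
  have sS : ∑ i, (2 * c i * s i) = 0 := by
    have : ∑ i, (2 * c i * s i) = ρ ^ 2 * ∑ i, r i ^ 2 * (2 * c i * s i) := by
      rw [mul_sum]
      exact sum_congr rfl fun i _ => by
        linear_combination (-(2 * c i * s i) * (ρ * r i + 1)) * hρ i
    rw [this, h3, mul_zero]
  have f1 : ∑ v, ca (k v) = 0 := by
    simp only [← hk1, sum_add_distrib, ← mul_sum, sc, ss]; ring
  have f2 : ∑ v, sa (k v) = 0 := by
    simp only [← hk2, sum_sub_distrib, ← mul_sum, sc, ss]; ring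
  have f3 : ∑ v, (ca (k v) ^ 2 - sa (k v) ^ 2) = 0 := by
    have : ∀ v, ca (k v) ^ 2 - sa (k v) ^ 2 = (c o ^ 2 - s o ^ 2) * (c v ^ 2 - s v ^ 2)
        + (2 * c o * s o) * (2 * c v * s v) := fun v => by rw [← hk1, ← hk2]; ring
    simp only [this]
    rw [sum_add_distrib, ← mul_sum, ← mul_sum, sC, sS]; ring
  have f4 : ∑ v, (2 * ca (k v) * sa (k v)) = 0 := by
    have : ∀ v, 2 * ca (k v) * sa (k v) = (c o ^ 2 - s o ^ 2) * (2 * c v * s v)
        - (2 * c o * s o) * (c v ^ 2 - s v ^ 2) := fun v => by rw [← hk1, ← hk2]; ring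
    simp only [this]
    rw [sum_sub_distrib, ← mul_sum, ← mul_sum, sC, sS]; ring
  rw [fib k ca] at f1
  rw [fib k sa] at f2
  rw [fib k (fun l => ca l ^ 2 - sa l ^ 2)] at f3
  rw [fib k (fun l => 2 * ca l * sa l)] at f4
  refine ⟨k, (univ.filter (fun v => k v = 0)).card, (univ.filter (fun v => k v = 1)).card, ?_, ?_⟩
  · set n : Fin 6 → ℕ := fun l => (univ.filter (fun v => k v = l)).card with hn
    have g1 : ∑ l, (n l : ℝ) * ca l = 0 := f1
    have g2 : ∑ l, (n l : ℝ) * sa l = 0 := f2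
    have g3 : ∑ l, (n l : ℝ) * (ca l ^ 2 - sa l ^ 2) = 0 := f3
    have g4 : ∑ l, (n l : ℝ) * (2 * ca l * sa l) = 0 := f4
    change ∀ l : Fin 6, n l = if l.val % 2 = 0 then n 0 else n 1
    clear_value n
    simp only [Fin.sum_univ_six, ca, sa, Matrix.cons_val] at g1 g2 g3 g4
    have hs : (0 : ℝ) < √3 := by positivity
    have g2' : (n 1 : ℝ) + n 2 - n 4 - n 5 = 0 := by
      apply mul_left_cancel₀ hs.ne'
      linear_combination 2 * g2
    have g4' : (n 1 : ℝ) - n 2 + n 4 - n 5 = 0 := by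
      apply mul_left_cancel₀ hs.ne'
      linear_combination 2 * g4
    have g3' : (n 0 : ℝ) + n 3 - (n 1 + n 2 + n 4 + n 5) / 2 = 0 := by
      linear_combination g3 + ((n 1 : ℝ) + n 2 + n 4 + n 5) / 4 * s3
    have e2 : (n 2 : ℝ) = n 0 := by linarith
    have e3 : (n 3 : ℝ) = n 1 := by linarith
    have e4 : (n 4 : ℝ) = n 0 := by linarith
    have e5 : (n 5 : ℝ) = n 1 := by linarith
    norm_cast at e2 e3 e4 e5
    intro l
    fin_cases l <;> simp [e2, e3, e4, e5]
  · intro i j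
    rw [← sign_iff, ← hk1, ← hk1, ← hk2, ← hk2]
    have e : (c o * c i + s o * s i) * (c o * c j + s o * s j)
        + (c o * s i - s o * c i) * (c o * s j - s o * c j) = c i * c j + s i * s j := by
      linear_combination (c i * c j + s i * s j) * hcs o
    rw [e]
    have := h5 i j
    split_ifs at this with hb
    · simp only [hb, true_iff]
      rcases this with h | h <;> linarith
    · simp only [hb, false_iff, not_lt]
      rcases this with h | h <;> linarith

lemma two_perp (c0 c1 c2 : ℝ) : ∃ a0 a1 a2 b0 b1 b2 : ℝ, a0 ^ 2 + a1 ^ 2 + a2 ^ 2 = 1 ∧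
    b0 ^ 2 + b1 ^ 2 + b2 ^ 2 = 1 ∧ a0 * b0 + a1 * b1 + a2 * b2 = 0 ∧
    a0 * c0 + a1 * c1 + a2 * c2 = 0 ∧ b0 * c0 + b1 * c1 + b2 * c2 = 0 := by
  obtain ⟨r, c, s, _, h1, rfl, rfl⟩ := polar c0 c1
  obtain ⟨r', c', s', _, h2, rfl, rfl⟩ := polar r c2
  refine ⟨-s, c, 0, c * s', s * s', -c', by linear_combination h1, ?_, by ring, by ring, ?_⟩
  · linear_combination s' ^ 2 * h1 + h2
  · linear_combination r' * c' * s' * h1

end Pool.Agent.H.MP_3fdae4_co
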